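import Pool.Agent.Helper40.AlphaFinal

/-!
The `α`-clique achievement number of the Maker-Breaker game on `K_N` is `Q_α(N) + O(1)`.
-/

set_option autoImplicit false
set_option linter.unusedVariables false

namespace Pool.Agent.Results.MP_0b4536_co.BoundedError

/-- A play on the edges of the complete graph with `N` vertices is the list of the claimed edges in
the order of their claiming; Maker makes the moves number `0, 2, 4, ...` and Breaker the moves number
`1, 3, 5, ...`; no edge is claimed twice, and the play is complete when all edges are claimed.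
`MakerOwns l e`: the edge `e` was claimed by Maker in the play `l`. -/
def MakerOwns {N : ℕ} (l : List (Sym2 (Fin N))) (e : Sym2 (Fin N)) : Prop :=
  ∃ (i : ℕ) (h : i < l.length), i % 2 = 0 ∧ l[i]'h = e

/-- Maker has a strategy `σ` (a function of the history which always claims an unclaimed edge) such
that at the end of every complete play following it there is a set `S` of `q` vertices such that he
owns at least `α * (q choose 2)` of the edges with both ends in `S`. -/
def MakerAchieves (α : ℝ) (q N : ℕ) : Prop :=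
  ∃ σ : List (Sym2 (Fin N)) → Sym2 (Fin N),
    (∀ l : List (Sym2 (Fin N)), l.Nodup → (∀ e ∈ l, ¬ e.IsDiag) →
      (∀ (i : ℕ) (h : i < l.length), i % 2 = 0 → l[i]'h = σ (l.take i)) →
      l.length % 2 = 0 → (∃ e : Sym2 (Fin N), ¬ e.IsDiag ∧ e ∉ l) →
      (¬ (σ l).IsDiag ∧ σ l ∉ l)) ∧
    (∀ l : List (Sym2 (Fin N)), l.Nodup → (∀ e ∈ l, ¬ e.IsDiag) →
      (∀ e : Sym2 (Fin N), ¬ e.IsDiag → e ∈ l) →
      (∀ (i : ℕ) (h : i < l.length), i % 2 = 0 → l[i]'h = σ (l.take i)) →
      ∃ S : Finset (Fin N), S.card = q ∧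
        α * (q.choose 2 : ℝ) ≤
          (({e : Sym2 (Fin N) | ¬ e.IsDiag ∧ (∀ v ∈ e, v ∈ S) ∧ MakerOwns l e}.ncard : ℕ) : ℝ))

/-- `a` is the `α`-clique achievement number of `K_N`. -/
def IsAchievementNumber (α : ℝ) (N a : ℕ) : Prop :=
  IsGreatest {q : ℕ | MakerAchieves α q N} a

/-- the binary entropy function -/
noncomputable def Hbin (α : ℝ) : ℝ :=
  -α * Real.logb 2 α - (1 - α) * Real.logb 2 (1 - α)

/-- `Q_α(N)` -/
noncomputable def Q (α : ℝ) (N : ℕ) : ℝ :=
  2 / (1 - Hbin α) * (Real.logb 2 N - Real.logb 2 (Real.logb 2 N) + Real.logb 2 (1 - Hbin α) +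
    Real.logb 2 (Real.exp 1) - 1) - 1

open Finset Pool.Agent.Helper40.Game Pool.Agent.Helper40.K9 Pool.Agent.Helper40.SM
  Pool.Agent.Helper40.CF Pool.Agent.Helper40.AM Pool.Agent.Helper40.Hyp Pool.Agent.Helper40.Asy

lemma rate_eq {α : ℝ} (h0 : 1 / 2 < α) (h1 : α < 1) :
    rate (HH α) = Real.log 2 * (1 - Hbin α) := by
  rw [rate_HH h0 h1]
  unfold Hbin Real.logb
  have : Real.log 2 ≠ 0 := (Real.log_pos (by norm_num)).ne'
  field_simp
  ring

lemma Q_eq {α : ℝ} (h0 : 1 / 2 < α) (h1 : α < 1) {N : ℕ} (hN : 0 < Real.log N) :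
    Q α N = QL (rate (HH α)) (Real.log N) := by
  have hD := rate_pos h0 h1
  have hl2 : 0 < Real.log 2 := Real.log_pos (by norm_num)
  have hr := rate_eq h0 h1
  have hH : 1 - Hbin α = rate (HH α) / Real.log 2 := by
    rw [hr]; field_simp
  unfold Q QL
  rw [hH]
  unfold Real.logb
  rw [Real.log_div hN.ne' hl2.ne', Real.log_div hD.ne' hl2.ne', Real.log_exp,
    Real.log_div (by positivity) hD.ne', Real.log_mul (by norm_num) hN.ne']
  field_simp
  ring

lemma set_eq {N : ℕ} (l : List (Sym2 (Fin N))) (hnd : l.Nodup) (S : Finset (Fin N)) :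
    {e : Sym2 (Fin N) | ¬ e.IsDiag ∧ (∀ v ∈ e, v ∈ S) ∧ MakerOwns l e} =
      ((edg S ∩ cls 0 l : Finset (Sym2 (Fin N))) : Set (Sym2 (Fin N))) := by
  ext e
  rw [Set.mem_setOf_eq, Finset.mem_coe, Finset.mem_inter]
  constructor
  · rintro ⟨h1, h2, i, hi, hi2, hie⟩
    refine ⟨?_, ?_⟩
    · induction e with
      | h a b =>
          rw [mem_edg]
          rw [Sym2.mk_isDiag_iff] at h1
          exact ⟨h2 a (by simp), h2 b (by simp), h1⟩
    · rw [← hie]
      exact mem_cls_of_getElem hnd hi hi2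
  · rintro ⟨h1, h2⟩
    refine ⟨?_, ?_, exists_of_mem_cls h2⟩
    · induction e with
      | h a b =>
          rw [mem_edg] at h1
          rw [Sym2.mk_isDiag_iff]
          exact h1.2.2
    · induction e with
      | h a b =>
          rw [mem_edg] at h1
          intro v hv
          rw [Sym2.mem_iff] at hv
          rcases hv with rfl | rfl
          · exact h1.1
          · exact h1.2.1

lemma achieves_of {α : ℝ} {q N k : ℕ} (hk : k = ⌈α * (q.choose 2 : ℕ)⌉₊)
    {σ : List (Sym2 (Fin N)) → Sym2 (Fin N)}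
    (h1 : Legal (EE N) 0 σ)
    (h2 : ∀ h : List (Sym2 (Fin N)), h.Nodup → (∀ e ∈ h, e ∈ EE N) → (∀ e ∈ EE N, e ∈ h) →
      Cons σ 0 h → ∃ i ∈ fam N q, k ≤ (edg i ∩ cls 0 h).card) : MakerAchieves α q N := by
  refine ⟨σ, ?_, ?_⟩
  · intro l hnd hE hc hl hex
    obtain ⟨e, he, hel⟩ := hex
    have h3 := h1 l hnd (fun e he => mem_EE.2 (hE e he)) hc hl ⟨e, mem_EE.2 he, hel⟩
    exact ⟨mem_EE.1 h3.1, h3.2⟩
  · intro l hnd hE hall hc
    obtain ⟨S, hS, hS2⟩ := h2 l hnd (fun e he => mem_EE.2 (hE e he))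
      (fun e he => hall e (mem_EE.1 he)) hc
    refine ⟨S, mem_fam.1 hS, ?_⟩
    rw [set_eq l hnd S, Set.ncard_coe_finset]
    have h3 : α * (q.choose 2 : ℝ) ≤ k := by rw [hk]; exact Nat.le_ceil _
    have h4 : (k:ℝ) ≤ ((edg S ∩ cls 0 l).card : ℝ) := by exact_mod_cast hS2
    exact h3.trans h4

lemma of_achieves {α : ℝ} {q N k : ℕ} (hk : k = ⌈α * (q.choose 2 : ℕ)⌉₊)
    (h : MakerAchieves α q N) :
    ∃ σ : List (Sym2 (Fin N)) → Sym2 (Fin N), Legal (EE N) 0 σ ∧
      ∀ l : List (Sym2 (Fin N)), l.Nodup → (∀ e ∈ l, e ∈ EE N) → (∀ e ∈ EE N, e ∈ l) →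
        Cons σ 0 l → ∃ S : Finset (Fin N), S.card = q ∧ k ≤ (edg S ∩ cls 0 l).card := by
  obtain ⟨σ, h1, h2⟩ := h
  refine ⟨σ, ?_, ?_⟩
  · intro l hnd hE hc hl hex
    obtain ⟨e, he, hel⟩ := hex
    have h3 := h1 l hnd (fun e he => mem_EE.1 (hE e he)) hc hl ⟨e, mem_EE.1 he, hel⟩
    exact ⟨mem_EE.2 h3.1, h3.2⟩
  · intro l hnd hE hall hc
    obtain ⟨S, hS, hS2⟩ := h2 l hnd (fun e he => mem_EE.1 (hE e he))
      (fun e he => hall e (mem_EE.2 he)) hc
    refine ⟨S, hS, ?_⟩
    rw [set_eq l hnd S, Set.ncard_coe_finset] at hS2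
    rw [hk, Nat.ceil_le]
    exact hS2

/-- a trivial strategy exists -/
lemma achieves_zero {α : ℝ} {N : ℕ} [Inhabited (Sym2 (Fin N))] : MakerAchieves α 0 N := by
  refine achieves_of (k := 0) (by simp) (gM_legal (EE N) (fun _ _ => (0:ℝ))) ?_
  intro h _ _ _ _
  exact ⟨∅, by simp [mem_fam], Nat.zero_le _⟩

lemma achieves_le {α : ℝ} {q N : ℕ} [Inhabited (Sym2 (Fin N))] (h : MakerAchieves α q N) :
    q ≤ N := by
  obtain ⟨σ, h1, h2⟩ := of_achieves rfl h
  obtain ⟨l, hnd, hE, hall, hc, hd⟩ := exists_play h1 (gB_legal (EE N) (fun _ _ => (0:ℝ)))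
  obtain ⟨S, hS, _⟩ := h2 l hnd hE hall hc
  rw [← hS]
  exact (Finset.card_le_univ S).trans (by simp)

/-- For every fixed `1/2 < α < 1` there is a constant `C` such that for all large `N` the `α`-clique
achievement number `a` of `K_N` satisfies `|a - Q_α(N)| ≤ C`. -/
theorem result : ∀ α : ℝ, 1 / 2 < α → α < 1 → ∃ (C : ℝ) (N₀ : ℕ), ∀ N : ℕ, N₀ ≤ N →
    ∃ a : ℕ, IsAchievementNumber α N a ∧ |(a : ℝ) - Q α N| ≤ C := by
  intro α h0 h1
  set D := rate (HH α) with hD
  have hD0 : 0 < D := rate_pos h0 h1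
  set ε := 2 * α - 1 with hε
  set c1 := (1 - α) / (2 * α) with hc1
  have hε0 : 0 < ε := by rw [hε]; linarith
  have hc0 : 0 < c1 := by rw [hc1]; exact div_pos (by linarith) (by linarith)
  obtain ⟨x0, hx0⟩ := Filter.eventually_atTop.1 ((eventually_big hD0).and
    (Filter.eventually_gt_atTop (2 / (ε ^ 2 * c1 ^ 2))))
  set Cl := 8 + 10 / D with hCl
  set Cu := 2 + 4 / D with hCu
  have hCl0 : 0 < Cl := by positivity
  have hCu0 : 0 < Cu := by positivity
  have hev := eventually_params hD0 (|x0| + Cl + 2)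
  have hlog : Filter.Tendsto (fun N : ℕ => Real.log (N:ℝ)) Filter.atTop Filter.atTop :=
    Real.tendsto_log_atTop.comp tendsto_natCast_atTop_atTop
  obtain ⟨N₀, hN₀⟩ := Filter.eventually_atTop.1 (hlog.eventually hev)
  refine ⟨Cl + Cu + 2, max N₀ 2, fun N hN => ?_⟩
  have hN2 : 2 ≤ N := le_trans (le_max_right _ _) hN
  obtain ⟨hL0, hlog1, hQ1, hQ2, hQ3⟩ := hN₀ N (le_trans (le_max_left _ _) hN)
  have : Inhabited (Sym2 (Fin N)) := ⟨s(⟨0, by omega⟩, ⟨0, by omega⟩)⟩
  set L := Real.log (N:ℝ) with hLdef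
  have hQeq : Q α N = QL D L := Q_eq h0 h1 hL0
  rw [hQeq]
  set QQ := QL D L with hQQ
  have hx0' : x0 ≤ |x0| := le_abs_self x0
  -- the lower bound
  set q := ⌊QQ - Cl⌋₊ with hq
  have hqn : (0:ℝ) ≤ QQ - Cl := by
    have := abs_nonneg x0
    linarith
  have hq_le : (q:ℝ) ≤ QQ - Cl := Nat.floor_le hqn
  have hq_gt : QQ - Cl - 1 < q := by
    have := Nat.lt_floor_add_one (QQ - Cl)
    linarith
  have hqx : x0 ≤ (q:ℝ) := by linarith
  obtain ⟨hBig, hq2⟩ := hx0 q hqx
  have hq4 : (4:ℝ) ≤ q := hBig.hq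
  have hq4' : 4 ≤ q := by exact_mod_cast hq4
  have hq0 : (0:ℝ) < q := by linarith
  have hL1 : D * q / 2 + Real.log q + (4 * D + 4) ≤ L := by
    have a1 : D * q / 2 ≤ D * (QQ - Cl) / 2 := by
      have := mul_le_mul_of_nonneg_left hq_le hD0.le
      linarith
    have a2 : D * (QQ - Cl) / 2 = L - Real.log (2 * L / D) + 1 - D / 2 - (4 * D + 5) := by
      rw [hQQ, hCl]
      unfold QL
      field_simp
      ring
    have a3 : Real.log q ≤ Real.log (2 * L / D) := by
      apply Real.log_le_log hq0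
      linarith
    linarith
  have hNq : 2 * q ^ 2 ≤ N := by
    have b1 := hBig.a1
    have b2 : Real.log 2 + 2 * Real.log q ≤ L := by
      have := hBig.hΛ
      linarith
    have hNpos : (0:ℝ) < N := by
      have : 0 < N := by omega
      exact_mod_cast this
    have b3 : Real.exp (Real.log 2 + 2 * Real.log q) ≤ Real.exp L := Real.exp_le_exp.2 b2
    rw [hLdef, Real.exp_log hNpos, Real.exp_add, Real.exp_log (by norm_num)] at b3
    have b4 : Real.exp (2 * Real.log q) = (q:ℝ) ^ 2 := by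
      have := exp_log_aux hq0 2
      push_cast at this
      exact this
    rw [b4] at b3
    exact_mod_cast b3
  have hαn : 1 ≤ α * ((q.choose 2 : ℕ) : ℝ) := by
    rw [Nat.cast_choose_two]
    have h6 : 6 ≤ (q:ℝ) * (q - 1) / 2 := by nlinarith
    have h7 : (1 / 2) * 6 ≤ α * ((q:ℝ) * (q - 1) / 2) :=
      mul_le_mul h0.le h6 (by norm_num) (by linarith)
    linarith
  have hbig2 : 2 < ε ^ 2 * c1 ^ 2 * q := by
    rw [div_lt_iff₀ (by positivity)] at hq2
    linarith
  obtain ⟨σ, s1, s2⟩ := maker_q h0 h1 rfl rfl hBig hNq hL1 hαn hbig2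
  have hmem : MakerAchieves α q N := achieves_of rfl s1 s2
  -- the upper bound
  have hup : ∀ q' : ℕ, MakerAchieves α q' N → (q':ℝ) < QQ + Cu := by
    intro q' hq'
    by_contra hcon
    push Not at hcon
    have hQpos : 0 < L / D := by positivity
    have c1' : L + 2 + D / 2 ≤ Real.log q' + D * q' / 2 := by
      have a1 : D * (QQ + Cu) / 2 ≤ D * q' / 2 := by
        have := mul_le_mul_of_nonneg_left hcon hD0.le
        linarith
      have a2 : D * (QQ + Cu) / 2 = L - Real.log (2 * L / D) + 1 - D / 2 + (D + 2) := by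
        rw [hQQ, hCu]
        unfold QL
        field_simp
        ring
      have a3 : Real.log (L / D) ≤ Real.log q' := by
        apply Real.log_le_log hQpos
        linarith
      have a4 : Real.log (2 * L / D) = Real.log 2 + Real.log (L / D) := by
        rw [mul_div_assoc, Real.log_mul (by norm_num) hQpos.ne']
      have a5 : Real.log 2 < 1 := by
        have := Real.log_two_lt_d9
        linarith
      linarith
    have hq1 : 1 ≤ q' := by
      have : (0:ℝ) < q' := by linarith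
      exact_mod_cast this
    obtain ⟨τ, t1, t2⟩ := breaker_q h0 h1 rfl rfl hN2 hq1 c1'
    obtain ⟨ρ, r1, r2⟩ := of_achieves rfl hq'
    obtain ⟨l, hnd, hE, hall, hc, hd⟩ := exists_play r1 t1
    obtain ⟨S, hS, hS2⟩ := r2 l hnd hE hall hc
    have := t2 l hnd hE hall hd S (mem_fam.2 hS)
    omega
  have hbdd : BddAbove {q : ℕ | MakerAchieves α q N} := ⟨N, fun q hq => achieves_le hq⟩
  have hne : {q : ℕ | MakerAchieves α q N}.Nonempty := ⟨q, hmem⟩
  refine ⟨sSup {q : ℕ | MakerAchieves α q N}, ⟨Nat.sSup_mem hne hbdd,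
    fun q hq => le_csSup hbdd hq⟩, ?_⟩
  set a := sSup {q : ℕ | MakerAchieves α q N} with ha
  have g1 : (q:ℝ) ≤ a := by exact_mod_cast le_csSup hbdd hmem
  have g2 : (a:ℝ) < QQ + Cu := hup a (Nat.sSup_mem hne hbdd)
  rw [abs_le]
  constructor <;> linarith

end Pool.Agent.Results.MP_0b4536_co.BoundedError
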